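import Mathlib
import Pool.Agent.H220.TS.Stm

set_option autoImplicit false

/-! # `S_seqK` (helper977, for helper220) -/

namespace Pool.Agent.H977.TS

open Pool.Agent.H220.TS

theorem s_seqK : S_seqK := by
  intro a x c K hc hK hx h1 h2
  obtain ⟨M, hM⟩ := exists_nat_ge (K / c)
  refine ⟨M, a 1, fun n hn => ?_⟩
  have hpos : ∀ n : ℕ, 1 ≤ n → 0 < a n := by
    intro n hn
    have hn' : (0 : ℝ) < n := by exact_mod_cast hn
    have := hx n
    refine lt_of_lt_of_le ?_ (h1 n hn)
    positivity
  induction n, hn using Nat.le_induction with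
  | base => simp
  | succ n hn ih =>
    have hn' : (0 : ℝ) < n := by exact_mod_cast hn
    have h3 : x n ≤ a n / (c * n) := by
      rw [le_div_iff₀ (by positivity)]
      have := h1 n hn
      linarith
    have h4 : K * x n ≤ a n * (M * (1 / n)) := by
      calc K * x n ≤ K * (a n / (c * n)) := mul_le_mul_of_nonneg_left h3 hK
        _ = a n * ((K / c) * (1 / n)) := by field_simp
        _ ≤ a n * (M * (1 / n)) := by
          refine mul_le_mul_of_nonneg_left ?_ (hpos n hn).le
          exact mul_le_mul_of_nonneg_right hM (by positivity)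
    have h5 : 1 + (M : ℝ) * (1 / n) ≤ (1 + 1 / n) ^ M := by
      refine one_add_mul_le_pow ?_ M
      have : (0 : ℝ) ≤ 1 / n := by positivity
      linarith
    calc a (n + 1) ≤ a n + K * x n := h2 n
      _ ≤ a n * (1 + M * (1 / n)) := by linarith
      _ ≤ a n * (1 + 1 / n) ^ M := mul_le_mul_of_nonneg_left h5 (hpos n hn).le
      _ ≤ (a 1 * (n : ℝ) ^ M) * (1 + 1 / n) ^ M :=
        mul_le_mul_of_nonneg_right ih (by positivity)
      _ = a 1 * ((n : ℝ) * (1 + 1 / n)) ^ M := by rw [mul_pow]; ring
      _ = a 1 * ((n + 1 : ℕ) : ℝ) ^ M := by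
        congr 2
        push_cast
        field_simp

end Pool.Agent.H977.TS
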